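import Pool.Agent.W246.TN.Fin

/-!
# Cost and generators of subgroups of finite index
-/

set_option autoImplicit false
set_option linter.unusedVariables false
set_option linter.unusedSectionVars false

open MeasureTheory

namespace Pool.Agent.Q191.TR

open Pool.Agent.W336.CS

variable {G : Type} [Group G]

/-- the configuration which belongs to a coset `c = h⁻¹ N`: on `{x | x • c = N}` the edges with
labels in `T`, and elsewhere one edge leading to this set -/
noncomputable def cosetCfg (N : Subgroup G) (T : Finset G) (c : G ⧸ N) : Cfg G := by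
  classical
  exact fun e => decide ((e.1 • c = ((1 : G) : G ⧸ N) ∧ e.2 ∈ T) ∨
    (e.1 • c ≠ ((1 : G) : G ⧸ N) ∧ e.2 = ((e.1 • c).out)⁻¹))

theorem cosetCfg_eq {N : Subgroup G} {T : Finset G} {c : G ⧸ N} {e : G × G} :
    cosetCfg N T c e = true ↔ ((e.1 • c = ((1 : G) : G ⧸ N) ∧ e.2 ∈ T) ∨
    (e.1 • c ≠ ((1 : G) : G ⧸ N) ∧ e.2 = ((e.1 • c).out)⁻¹)) := by
  classical
  simp [cosetCfg]

theorem shift_cosetCfg (N : Subgroup G) (T : Finset G) (c : G ⧸ N) (h : G) :
    shift h (cosetCfg N T c) = cosetCfg N T (h • c) := by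
  funext e
  rw [Bool.eq_iff_iff]
  show cosetCfg N T c (e.1 * h, e.2) = true ↔ _
  rw [cosetCfg_eq, cosetCfg_eq]
  simp only [mul_smul]

theorem conn_coset {N : Subgroup G} {T : Finset G} (hT : Subgroup.closure (T : Set G) = N)
    (c : G ⧸ N) (x y : G) : Conn (∅ : Set G) (cosetCfg N T c) x y := by
  -- every vertex is connected to one on the coset
  have h1 : ∀ x : G, ∃ y : G, y • c = ((1 : G) : G ⧸ N) ∧ Conn (∅ : Set G) (cosetCfg N T c) x y := by
    intro x
    by_cases h : x • c = ((1 : G) : G ⧸ N)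
    · exact ⟨x, h, Conn.refl _ _ _⟩
    · refine ⟨((x • c).out)⁻¹ * x, ?_, Conn.edge (cosetCfg_eq.2 (Or.inr ⟨h, rfl⟩))⟩
      rw [mul_smul, inv_smul_eq_iff]
      have : ((x • c).out : G ⧸ N) = x • c := QuotientGroup.out_eq' _
      conv_lhs => rw [← this]
      show _ = ((((x • c).out) * 1 : G) : G ⧸ N)
      rw [mul_one]
  have h2 : ∀ x y : G, x • c = ((1 : G) : G ⧸ N) → y • c = ((1 : G) : G ⧸ N) →
      Conn (∅ : Set G) (cosetCfg N T c) x y := by
    intro x y hx hy
    have hmem : y * x⁻¹ ∈ Subgroup.closure (T : Set G) := by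
      rw [hT]
      have h3 : (y * x⁻¹) • ((1 : G) : G ⧸ N) = ((1 : G) : G ⧸ N) := by
        rw [← hx, smul_smul, inv_mul_cancel_right, hy, hx]
      have h4 : (((y * x⁻¹) * 1 : G) : G ⧸ N) = ((1 : G) : G ⧸ N) := h3
      rw [mul_one] at h4
      have h5 := QuotientGroup.eq.1 h4
      rw [mul_one] at h5
      exact N.inv_mem_iff.1 h5
    have h6 := closure_rel (fun a b => (a • c = ((1 : G) : G ⧸ N) ↔ b • c = ((1 : G) : G ⧸ N)) ∧
      (a • c = ((1 : G) : G ⧸ N) → Conn (∅ : Set G) (cosetCfg N T c) a b))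
      (fun a => ⟨Iff.rfl, fun _ => Conn.refl _ _ _⟩)
      (fun a b h => ⟨h.1.symm, fun hb => (h.2 (h.1.2 hb)).symm⟩)
      (fun a b d h h' => ⟨h.1.trans h'.1, fun ha => (h.2 ha).trans (h'.2 (h.1.1 ha))⟩)
      (S := (T : Set G)) (by
        intro a s hs
        have hsN : s ∈ N := by
          rw [← hT]; exact Subgroup.subset_closure hs
        refine ⟨?_, fun ha => Conn.edge (cosetCfg_eq.2 (Or.inl ⟨ha, Finset.mem_coe.1 hs⟩))⟩
        have hs1 : s • ((1 : G) : G ⧸ N) = ((1 : G) : G ⧸ N) := by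
          show ((s * 1 : G) : G ⧸ N) = _
          rw [mul_one, QuotientGroup.eq, mul_one]
          exact N.inv_mem hsN
        rw [mul_smul]
        constructor
        · intro h; rw [h]; exact hs1
        · intro h
          rw [← hs1] at h
          exact smul_left_cancel s h) hmem x
    rw [inv_mul_cancel_right] at h6
    exact h6.2 hx
  obtain ⟨x', hx', hcx⟩ := h1 x
  obtain ⟨y', hy', hcy⟩ := h1 y
  exact hcx.trans ((h2 x' y' hx' hy').trans hcy.symm)

/-- the average over all cosets -/
noncomputable def cosetMeas (N : Subgroup G) [Fintype (G ⧸ N)] (T : Finset G) : Measure (Cfg G) :=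
  ((Fintype.card (G ⧸ N) : ENNReal)⁻¹) • ∑ c : G ⧸ N, Measure.dirac (cosetCfg N T c)

theorem cosetMeas_prob (N : Subgroup G) [Fintype (G ⧸ N)] (T : Finset G) :
    IsProbabilityMeasure (cosetMeas N T) := by
  constructor
  unfold cosetMeas
  rw [Measure.smul_apply, Measure.finsetSum_apply]
  simp only [measure_univ, Finset.sum_const, Finset.card_univ, nsmul_eq_mul, mul_one, smul_eq_mul]
  exact ENNReal.inv_mul_cancel (by exact_mod_cast Fintype.card_ne_zero) (ENNReal.natCast_ne_top _)

theorem cosetMeas_inv (N : Subgroup G) [Fintype (G ⧸ N)] (T : Finset G) :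
    Inv (cosetMeas N T) := by
  intro h
  unfold cosetMeas
  rw [Measure.map_smul]
  congr 1
  rw [← Measure.mapₗ_apply_of_measurable (measurable_shift h), map_sum]
  have h1 : ∀ c : G ⧸ N, (Measure.mapₗ (shift h)) (Measure.dirac (cosetCfg N T c)) =
      Measure.dirac (cosetCfg N T (h • c)) := by
    intro c
    rw [Measure.mapₗ_apply_of_measurable (measurable_shift h),
      Measure.map_dirac' (measurable_shift h), shift_cosetCfg]
  simp only [h1]
  exact Fintype.sum_equiv (MulAction.toPerm h) _ _ (fun c => rfl)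

theorem cosetMeas_cost (N : Subgroup G) [Fintype (G ⧸ N)] (T : Finset G) :
    cost (cosetMeas N T) ≤ (Fintype.card (G ⧸ N) : ENNReal)⁻¹ *
      (T.card + (Fintype.card (G ⧸ N) - 1 : ℕ)) := by
  classical
  unfold cost
  have hm : ∀ s : G, MeasurableSet {ω : Cfg G | ω (1, s) = true} := fun s =>
    measurableSet_eq_fun (measurable_pi_apply _) measurable_const
  have h1 : ∀ s : G, cosetMeas N T {ω : Cfg G | ω (1, s) = true} =
      (Fintype.card (G ⧸ N) : ENNReal)⁻¹ *
        ∑ c : G ⧸ N, (if cosetCfg N T c (1, s) = true then (1 : ENNReal) else 0) := by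
    intro s
    unfold cosetMeas
    rw [Measure.smul_apply, Measure.finsetSum_apply, smul_eq_mul]
    congr 1
    refine Finset.sum_congr rfl fun c _ => ?_
    rw [Measure.dirac_apply' _ (hm s), Set.indicator_apply]
    rfl
  simp only [h1]
  rw [ENNReal.tsum_mul_left]
  gcongr
  rw [Summable.tsum_finsetSum (fun c _ => ENNReal.summable)]
  have h2 : ∀ c : G ⧸ N, (∑' s : G, if cosetCfg N T c (1, s) = true then (1 : ENNReal) else 0) ≤
      if c = ((1 : G) : G ⧸ N) then (T.card : ENNReal) else 1 := by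
    intro c
    split_ifs with hc
    · have h3 : ∀ s ∉ T, (if cosetCfg N T c (1, s) = true then (1 : ENNReal) else 0) = 0 := by
        intro s hs
        rw [if_neg]
        rw [cosetCfg_eq]
        rintro (⟨_, h⟩ | ⟨h, _⟩)
        · exact hs h
        · apply h
          show (1 : G) • c = _
          rw [one_smul]; exact hc
      rw [tsum_eq_sum h3]
      calc ∑ s ∈ T, (if cosetCfg N T c (1, s) = true then (1 : ENNReal) else 0)
          ≤ ∑ s ∈ T, (1 : ENNReal) := Finset.sum_le_sum fun s _ => by split_ifs <;> simp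
        _ = T.card := by simp
    · have h3 : ∀ s : G, s ≠ (c.out)⁻¹ →
          (if cosetCfg N T c (1, s) = true then (1 : ENNReal) else 0) = 0 := by
        intro s hs
        rw [if_neg]
        rw [cosetCfg_eq]
        show ¬ (((1 : G) • c = _ ∧ s ∈ T) ∨ ((1 : G) • c ≠ _ ∧ s = (((1 : G) • c).out)⁻¹))
        rw [one_smul]
        rintro (⟨h, _⟩ | ⟨_, h⟩)
        · exact hc h
        · exact hs h
      rw [tsum_eq_single _ h3]
      split_ifs <;> simp
  refine (Finset.sum_le_sum fun c _ => h2 c).trans ?_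
  rw [Finset.sum_ite, Finset.sum_const, Finset.sum_const, nsmul_eq_mul, nsmul_eq_mul]
  have h4 : (Finset.univ.filter (fun c : G ⧸ N => c = ((1 : G) : G ⧸ N))).card = 1 := by
    rw [Finset.filter_eq']
    simp
  have h5 : (Finset.univ.filter (fun c : G ⧸ N => ¬ c = ((1 : G) : G ⧸ N))).card =
      Fintype.card (G ⧸ N) - 1 := by
    have := Finset.card_filter_add_card_filter_not (s := (Finset.univ : Finset (G ⧸ N)))
      (fun c : G ⧸ N => c = ((1 : G) : G ⧸ N))
    rw [h4, Finset.card_univ] at this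
    omega
  rw [h4, h5]
  simp

theorem costLe_coset [Countable G] (N : Subgroup G) [Fintype (G ⧸ N)] (T : Finset G)
    (hT : Subgroup.closure (T : Set G) = N) :
    CostLe G ((Fintype.card (G ⧸ N) : ENNReal)⁻¹ *
      (T.card + (Fintype.card (G ⧸ N) - 1 : ℕ))) := by
  have hRC : RC (∅ : Set G) Set.univ ((Fintype.card (G ⧸ N) : ENNReal)⁻¹ *
      (T.card + (Fintype.card (G ⧸ N) - 1 : ℕ))) := by
    refine ⟨cosetMeas N T, cosetMeas_prob N T, cosetMeas_inv N T, cosetMeas_cost N T, ?_⟩
    have hm : MeasurableSet {ω : Cfg G | ∀ g : G, ∀ s ∈ Set.univ, Conn (∅ : Set G) ω g (s * g)} := by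
      have : {ω : Cfg G | ∀ g : G, ∀ s ∈ Set.univ, Conn (∅ : Set G) ω g (s * g)} =
          ⋂ g : G, ⋂ s : G, {ω : Cfg G | Conn (∅ : Set G) ω g (s * g)} := by
        ext ω; simp
      rw [this]
      exact MeasurableSet.iInter fun g => MeasurableSet.iInter fun s => measurableSet_conn _ _ _
    rw [ae_iff]
    have h1 : {ω : Cfg G | ¬ ∀ g : G, ∀ s ∈ Set.univ, Conn (∅ : Set G) ω g (s * g)} =
        {ω : Cfg G | ∀ g : G, ∀ s ∈ Set.univ, Conn (∅ : Set G) ω g (s * g)}ᶜ := rfl
    rw [h1]
    unfold cosetMeas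
    rw [Measure.smul_apply, Measure.finsetSum_apply]
    have h2 : ∀ c : G ⧸ N, (Measure.dirac (cosetCfg N T c))
        {ω : Cfg G | ∀ g : G, ∀ s ∈ Set.univ, Conn (∅ : Set G) ω g (s * g)}ᶜ = 0 := by
      intro c
      rw [Measure.dirac_apply' _ hm.compl, Set.indicator_of_notMem]
      simp only [Set.mem_compl_iff, not_not]
      exact fun g s _ => conn_coset hT c _ _
    rw [Finset.sum_congr rfl (fun c _ => h2 c), Finset.sum_const_zero, smul_zero]
  have hch := chain Pool.Agent.W401.CS.real (G := G) (Equiv.refl ℕ) (fun a b : ℕ => a < b)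
    Nat.lt_wfRel.wf
    (fun i => ∅)
    (fun i => if i = 0 then Set.univ else ∅)
    (fun i => if i = 0 then ((Fintype.card (G ⧸ N) : ENNReal)⁻¹ *
      (T.card + (Fintype.card (G ⧸ N) - 1 : ℕ))) else 0)
    (by
      intro i
      rcases i with _ | i
      · simpa using hRC
      · simpa using RC.empty (∅ : Set G) 0)
    (by
      intro i v hv
      simp at hv)
    (by
      rw [eq_top_iff]
      intro g _
      exact Subgroup.subset_closure (Set.mem_iUnion.2 ⟨0, by simp⟩))
  refine hch.mono ?_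
  rw [tsum_eq_single 0]
  · simp
  · intro i hi
    simp [hi]

/-- If the cost of `G` is not at most `1 + ε`, then subgroups of finite index need many
generators. -/
theorem rank_of_cost [Countable G] {ε : ENNReal} (hεt : ε ≠ ⊤) (hcost : ¬ CostLe G (1 + ε))
    (N : Subgroup G) (hN : N.FiniteIndex) (T : Finset G) (hT : Subgroup.closure (T : Set G) = N) :
    ε.toReal * N.index ≤ (T.card : ℝ) - 1 := by
  by_contra hcon
  push Not at hcon
  apply hcost
  have hfin : Finite (G ⧸ N) := Subgroup.finite_quotient_of_finiteIndex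
  let _ : Fintype (G ⧸ N) := Fintype.ofFinite _
  refine (costLe_coset N T hT).mono ?_
  have hk : N.index = Fintype.card (G ⧸ N) := by
    rw [Subgroup.index_eq_card, Nat.card_eq_fintype_card]
  rw [hk] at hcon
  set k := Fintype.card (G ⧸ N) with hkd
  have hk0 : 0 < k := Fintype.card_pos
  lift ε to NNReal using hεt with e he
  rw [mul_comm, ← div_eq_mul_inv]
  refine ENNReal.div_le_of_le_mul ?_
  have h1 : (T.card : ℝ) + (k - 1 : ℕ) ≤ (1 + e) * k := by
    rw [Nat.cast_sub hk0]
    push_cast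
    simp only [ENNReal.coe_toReal] at hcon
    linarith
  exact_mod_cast h1

end Pool.Agent.Q191.TR
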