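import Pool.Agent.Q191.TR.Expand
import Pool.Agent.Q191.TR.Cost

/-!
# Choice of the subgroup of finite index
-/

set_option autoImplicit false
set_option linter.unusedVariables false
set_option linter.unusedSectionVars false

namespace Pool.Agent.Q191.TR

open Pool.Agent.W336.CS

theorem sep_of_rf (K : Type) [Group K] [Group.ResiduallyFinite K] : Sep K := by
  classical
  intro V
  have h := Group.residuallyFinite_iff_exists_finiteIndex.1 (inferInstance : Group.ResiduallyFinite K)
  choose! f hf using h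
  set M : Subgroup K := ⨅ p ∈ (V ×ˢ V).filter (fun p => p.1⁻¹ * p.2 ≠ 1), f (p.1⁻¹ * p.2) with hM
  have hMf : M.FiniteIndex := by
    rw [hM]
    refine Subgroup.finiteIndex_iInf' _ ?_
    intro p hp
    exact (hf _ (Finset.mem_filter.1 hp).2).1
  refine ⟨M.normalCore, inferInstance, inferInstance, ?_⟩
  intro x hx y hy hxy
  by_contra hne
  have h1 : x⁻¹ * y ≠ 1 := fun h => hne (inv_mul_eq_one.1 h)
  have h2 : x⁻¹ * y ∈ M := Subgroup.normalCore_le M hxy
  rw [hM, Subgroup.mem_iInf] at h2
  have h3 := h2 (x, y)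
  rw [Subgroup.mem_iInf] at h3
  exact (hf _ h1).2 (h3 (Finset.mem_filter.2 ⟨Finset.mem_product.2 ⟨hx, hy⟩, h1⟩))

/-- generators of a subgroup as elements of the subgroup -/
theorem lift_gen {G : Type} [Group G] [DecidableEq G] (K : Subgroup G) (T : Finset G)
    (hT : Subgroup.closure (T : Set G) = K) :
    ∃ S : Finset K, Subgroup.closure (S : Set K) = ⊤ ∧ S.card = T.card := by
  classical
  have hmem : ∀ t : T, (t : G) ∈ K := fun t => by
    rw [← hT]; exact Subgroup.subset_closure t.2
  let e : {x // x ∈ T} → K := fun t => ⟨(t : G), hmem t⟩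
  have he : ∀ t, (e t : G) = t := fun t => rfl
  refine ⟨T.attach.image e, ?_, ?_⟩
  · apply Subgroup.map_injective K.subtype_injective
    rw [MonoidHom.map_closure]
    have h1 : (K.subtype '' ((T.attach.image e : Finset K) : Set K)) = (T : Set G) := by
      ext x
      simp only [Finset.coe_image, Set.mem_image, Finset.mem_coe, Finset.mem_attach, true_and]
      constructor
      · rintro ⟨y, ⟨t, rfl⟩, rfl⟩
        exact t.2
      · intro hx
        exact ⟨e ⟨x, hx⟩, ⟨⟨x, hx⟩, rfl⟩, rfl⟩
    rw [h1, hT]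
    ext x
    simp
  · rw [Finset.card_image_of_injective, Finset.card_attach]
    intro a b hab
    exact Subtype.ext (congrArg (fun z : K => (z : G)) hab)

/-- many generators for all subgroups of finite index -/
def RGpos (G : Type) [Group G] (ε : ℝ) : Prop :=
  ∀ N : Subgroup G, N.FiniteIndex → ∀ T : Finset G, Subgroup.closure (T : Set G) = N →
    ε * N.index ≤ (T.card : ℝ) - 1

theorem infinite_of_rg {G : Type} [Group G] {ε : ℝ} (hε : 0 < ε) (h : RGpos G ε) :
    Infinite G := by
  by_contra hcon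
  rw [not_infinite_iff_finite] at hcon
  have h1 := h ⊥ inferInstance ∅ (by simp)
  have h2 : (0 : ℝ) ≤ (⊥ : Subgroup G).index := Nat.cast_nonneg _
  rw [Finset.card_empty, Nat.cast_zero] at h1
  nlinarith [mul_nonneg hε.le h2]

theorem exists_K {G : Type} [Group G] [Group.ResiduallyFinite G] (S0 : Finset G)
    (hS0 : Subgroup.closure (S0 : Set G) = ⊤) {ε : ℝ} (hε : 0 < ε) (hrg : RGpos G ε) :
    ∃ (K : Subgroup G) (ρ : ℝ) (S : Finset K), K.FiniteIndex ∧
      Subgroup.closure (S : Set K) = ⊤ ∧ 7 ≤ S.card ∧ (S.card : ℝ) - 1 ≤ 9 / 8 * ρ ∧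
      RankLB K ρ ∧ Sep K := by
  classical
  set W : Set ℝ := {x | ∃ N : Subgroup G, N.FiniteIndex ∧ ∃ T : Finset G,
    Subgroup.closure (T : Set G) = N ∧ x = ((T.card : ℝ) - 1) / N.index} with hW
  have hbd : ∀ x ∈ W, ε ≤ x := by
    rintro x ⟨N, hN, T, hT, rfl⟩
    have hi : (0 : ℝ) < N.index := by
      have := hN.index_ne_zero
      positivity
    rw [le_div_iff₀ hi]
    exact hrg N hN T hT
  have hne : W.Nonempty := ⟨_, ⊤, inferInstance, S0, hS0, rfl⟩
  have hbdd : BddBelow W := ⟨ε, hbd⟩
  set r := sInf W with hr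
  have hr0 : 0 < r := lt_of_lt_of_le hε (le_csInf hne hbd)
  have hrl : ∀ (N : Subgroup G), N.FiniteIndex → ∀ T : Finset G,
      Subgroup.closure (T : Set G) = N → r * N.index ≤ (T.card : ℝ) - 1 := by
    intro N hN T hT
    have hi : (0 : ℝ) < N.index := by
      have := hN.index_ne_zero
      positivity
    rw [← le_div_iff₀ hi]
    exact csInf_le hbdd ⟨N, hN, T, hT, rfl⟩
  obtain ⟨x, ⟨N0, hN0, T0, hT0, rfl⟩, hx⟩ := exists_lt_of_csInf_lt hne
    (show r < 9 / 8 * r by linarith)
  have hi0 : (0 : ℝ) < N0.index := by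
    have := hN0.index_ne_zero
    positivity
  rw [div_lt_iff₀ hi0] at hx
  -- `N0` is infinite
  have hGinf : Infinite G := infinite_of_rg hε hrg
  have hN0inf : Infinite N0 := by
    by_contra hcon
    rw [not_infinite_iff_finite] at hcon
    have : Finite G := (Subgroup.finite_iff_finite_and_finiteIndex (H := N0)).2 ⟨hcon, hN0⟩
    exact not_finite G
  obtain ⟨M, hM⟩ := exists_nat_gt (6 / r)
  obtain ⟨V, hV⟩ := Infinite.exists_subset_card_eq N0 M
  obtain ⟨L, hLn, hLf, hLV⟩ := sep_of_rf N0 V
  have hfin : Finite (N0 ⧸ L) := Subgroup.finite_quotient_of_finiteIndex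
  let _ : Fintype (N0 ⧸ L) := Fintype.ofFinite _
  have hML : M ≤ L.index := by
    rw [Subgroup.index_eq_card, Nat.card_eq_fintype_card, ← hV, ← Finset.card_univ]
    refine Finset.card_le_card_of_injOn (fun v => (v : N0 ⧸ L)) (fun v _ => Finset.mem_univ _) ?_
    intro v hv w hw hvw
    exact hLV v (Finset.mem_coe.1 hv) w (Finset.mem_coe.1 hw) (QuotientGroup.eq.1 hvw)
  obtain ⟨S1, hS1, hS1c⟩ := lift_gen N0 T0 hT0
  obtain ⟨T, hT, hTc⟩ := exists_gen (QuotientGroup.mk'_surjective L)
    (full_univ (QuotientGroup.mk' L) ∅ S1 (by rw [Finset.coe_empty, Set.empty_union]; exact hS1))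
  rw [QuotientGroup.ker_mk'] at hT
  rw [Finset.card_empty, mul_zero, zero_add, Finset.card_product, Finset.card_univ, hS1c] at hTc
  have hQ : Fintype.card (N0 ⧸ L) = L.index := by
    rw [Subgroup.index_eq_card, Nat.card_eq_fintype_card]
  rw [hQ] at hTc
  set K : Subgroup G := L.map N0.subtype with hK
  have hKi : K.index = L.index * N0.index := Subgroup.index_map_subtype L
  have hKf : K.FiniteIndex := ⟨by
    rw [hKi]
    exact mul_ne_zero hLf.index_ne_zero hN0.index_ne_zero⟩
  have hTK : Subgroup.closure ((T.image N0.subtype : Finset G) : Set G) = K := by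
    rw [Finset.coe_image, ← MonoidHom.map_closure, hT]
  have hTKc : (T.image N0.subtype).card = T.card :=
    Finset.card_image_of_injective _ N0.subtype_injective
  obtain ⟨S, hS, hSc⟩ := lift_gen K _ hTK
  rw [hTKc] at hSc
  have hlow := hrl K hKf _ hTK
  rw [hTKc, ← hSc] at hlow
  have hMr : 6 < r * M := by
    rw [div_lt_iff₀ hr0] at hM
    linarith
  have hN1 : (1 : ℝ) ≤ N0.index := by
    have := hN0.index_ne_zero
    exact_mod_cast Nat.one_le_iff_ne_zero.2 this
  have hML' : (M : ℝ) ≤ L.index := by exact_mod_cast hML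
  have hup : (S.card : ℝ) - 1 ≤ 9 / 8 * (r * K.index) := by
    have h1 : (T.card : ℝ) + L.index ≤ L.index * T0.card + 1 := by exact_mod_cast hTc
    rw [hSc, hKi]
    push_cast
    have h2 : (0 : ℝ) ≤ L.index := Nat.cast_nonneg _
    have h3 := mul_le_mul_of_nonneg_left hx.le h2
    nlinarith
  have h7 : (6 : ℝ) < (S.card : ℝ) - 1 := by
    refine lt_of_lt_of_le hMr (le_trans ?_ hlow)
    refine mul_le_mul_of_nonneg_left ?_ hr0.le
    rw [hKi]
    push_cast
    nlinarith
  refine ⟨K, r * K.index, S, hKf, hS, ?_, hup, ?_, sep_of_rf K⟩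
  · have : (7 : ℝ) < S.card := by linarith
    have h8 : 7 < S.card := by exact_mod_cast this
    exact h8.le
  · intro L' hL'n hL'f T' hT'
    have h1 : Subgroup.closure ((T'.image K.subtype : Finset G) : Set G) = L'.map K.subtype := by
      rw [Finset.coe_image, ← MonoidHom.map_closure, hT']
    have h2 : (L'.map K.subtype).index = L'.index * K.index := Subgroup.index_map_subtype L'
    have h3 : (L'.map K.subtype).FiniteIndex := ⟨by
      rw [h2]
      exact mul_ne_zero hL'f.index_ne_zero hKf.index_ne_zero⟩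
    have h4 := hrl _ h3 _ h1
    rw [Finset.card_image_of_injective _ K.subtype_injective, h2] at h4
    push_cast at h4
    linarith

end Pool.Agent.Q191.TR
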