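import Pool.Agent.Q191.TR.Forest

/-!
# Expansion inequalities in residually finite groups with large kernels' ranks
-/

set_option autoImplicit false
set_option linter.unusedVariables false
set_option linter.unusedSectionVars false

namespace Pool.Agent.Q191.TR

open Pool.Agent.W336.CS
open scoped Pointwise

section one

variable {K Q : Type} [Group K] [Group Q] [Fintype Q] [DecidableEq Q] [DecidableEq K]

theorem sum_prod_num (F : Finset (Q × K)) (A P : Finset K) :
    ∑ e ∈ A ×ˢ P, (num F e.2 : ℝ) = A.card * ∑ s ∈ P, (num F s : ℝ) := by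
  rw [Finset.sum_product]
  simp only [Finset.sum_const, nsmul_eq_mul]

/-- two disjoint sets of labels -/
theorem two_sets {π : K →* Q} (hπ : Function.Surjective π) {F : Finset (Q × K)}
    (hF : MinFull π ∅ F) (P R : Finset K) (hPR : Disjoint P R)
    (hP : (Fintype.card Q : ℝ) ≤ ∑ s ∈ P, (num F s : ℝ))
    (hR : (Fintype.card Q : ℝ) ≤ ∑ s ∈ R, (num F s : ℝ)) (A B : Finset K)
    (hV : Set.InjOn π (insert 1 P * A ∪ insert 1 R * B : Finset K)) :
    A.card + B.card ≤ (insert 1 P * A ∪ insert 1 R * B).card := by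
  classical
  set V := insert 1 P * A ∪ insert 1 R * B with hVd
  have hA : ∀ x ∈ A, x ∈ V := fun x hx =>
    Finset.mem_union_left _ (by
      have := Finset.mul_mem_mul (Finset.mem_insert_self (1 : K) P) hx
      rwa [one_mul] at this)
  have hB : ∀ x ∈ B, x ∈ V := fun x hx =>
    Finset.mem_union_right _ (by
      have := Finset.mul_mem_mul (Finset.mem_insert_self (1 : K) R) hx
      rwa [one_mul] at this)
  have hPA : ∀ p ∈ P, ∀ x ∈ A, p * x ∈ V := fun p hp x hx =>
    Finset.mem_union_left _ (Finset.mul_mem_mul (Finset.mem_insert_of_mem hp) hx)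
  have hRB : ∀ q ∈ R, ∀ x ∈ B, q * x ∈ V := fun q hq x hx =>
    Finset.mem_union_right _ (Finset.mul_mem_mul (Finset.mem_insert_of_mem hq) hx)
  have hc := count hπ hF (V := V) (D := V) hV (A ×ˢ P ∪ B ×ˢ R) (by
    intro e he
    rw [Finset.mem_union, Finset.mem_product, Finset.mem_product] at he
    rcases he with h | h
    · exact ⟨hA _ h.1, hPA _ h.2 _ h.1⟩
    · exact ⟨hB _ h.1, hRB _ h.2 _ h.1⟩) (by simp)
  rw [Finset.sum_union, sum_prod_num, sum_prod_num, Finset.sdiff_self, Finset.card_empty,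
    Finset.coe_empty, Subgroup.closure_empty, Subgroup.card_bot] at hc
  · have hQ : (0 : ℝ) < Fintype.card Q := by exact_mod_cast Fintype.card_pos
    have h1 : (A.card : ℝ) * Fintype.card Q + B.card * Fintype.card Q ≤
        Fintype.card Q * V.card := by
      have h2 := mul_le_mul_of_nonneg_left hP (Nat.cast_nonneg (α := ℝ) A.card)
      have h3 := mul_le_mul_of_nonneg_left hR (Nat.cast_nonneg (α := ℝ) B.card)
      simp only [Nat.cast_zero, zero_add, Nat.cast_one, div_one] at hc
      linarith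
    have h4 : ((A.card : ℝ) + B.card) * Fintype.card Q ≤ V.card * Fintype.card Q := by
      linarith
    have h5 := le_of_mul_le_mul_right h4 hQ
    exact_mod_cast h5
  · rw [Finset.disjoint_left]
    intro e he he'
    rw [Finset.mem_product] at he he'
    exact (Finset.disjoint_left.1 hPR he.2) he'.2

/-- one set of labels relative to an infinite base -/
theorem one_set {π : K →* Q} (hπ : Function.Surjective π) {P : Finset K} {F : Finset (Q × K)}
    (hF : MinFull π P F) (hinf : (Subgroup.closure (P : Set K) : Set K).Infinite) (R : Finset K)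
    (hR : (Fintype.card Q : ℝ) ≤ ∑ s ∈ R, (num F s : ℝ)) (A B : Finset K)
    (hV : Set.InjOn π (insert 1 P * A ∪ insert 1 R * B : Finset K)) :
    A.card + B.card ≤ (insert 1 P * A ∪ insert 1 R * B).card := by
  classical
  set V := insert 1 P * A ∪ insert 1 R * B with hVd
  have hA : A ⊆ V := fun x hx =>
    Finset.mem_union_left _ (by
      have := Finset.mul_mem_mul (Finset.mem_insert_self (1 : K) P) hx
      rwa [one_mul] at this)
  have hB : ∀ x ∈ B, x ∈ V := fun x hx =>
    Finset.mem_union_right _ (by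
      have := Finset.mul_mem_mul (Finset.mem_insert_self (1 : K) R) hx
      rwa [one_mul] at this)
  have hPA : ∀ p ∈ P, ∀ x ∈ A, p * x ∈ V := fun p hp x hx =>
    Finset.mem_union_left _ (Finset.mul_mem_mul (Finset.mem_insert_of_mem hp) hx)
  have hRB : ∀ q ∈ R, ∀ x ∈ B, q * x ∈ V := fun q hq x hx =>
    Finset.mem_union_right _ (Finset.mul_mem_mul (Finset.mem_insert_of_mem hq) hx)
  have hc := count hπ hF (V := V) (D := A) hV (B ×ˢ R) (by
    intro e he
    rw [Finset.mem_product] at he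
    exact ⟨hB _ he.1, hRB _ he.2 _ he.1⟩) hPA
  have h0 : Nat.card (Subgroup.closure (P : Set K)) = 0 := by
    have : Infinite (Subgroup.closure (P : Set K)) := hinf.to_subtype
    exact Nat.card_eq_zero_of_infinite
  rw [sum_prod_num, h0, Nat.cast_zero, div_zero, add_zero, Finset.card_sdiff_of_subset hA,
    Nat.cast_sub (Finset.card_le_card hA)] at hc
  have hQ : (0 : ℝ) < Fintype.card Q := by exact_mod_cast Fintype.card_pos
  have h3 := mul_le_mul_of_nonneg_left hR (Nat.cast_nonneg (α := ℝ) B.card)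
  have h4 : (B.card : ℝ) * Fintype.card Q ≤ ((V.card : ℝ) - A.card) * Fintype.card Q := by
    linarith
  have h5 := le_of_mul_le_mul_right h4 hQ
  have h6 : (A.card : ℝ) + B.card ≤ V.card := by linarith
  exact_mod_cast h6

/-- many good labels -/
theorem many_good {F : Finset (Q × K)} {S : Finset K} (hFS : F ⊆ Finset.univ ×ˢ S) (θ : ℝ)
    (hθ : 0 ≤ θ) (c : ℝ) (hc : c * Fintype.card Q ≤ F.card) :
    c ≤ (S.filter (fun s => θ * Fintype.card Q ≤ num F s)).card * (1 - θ) + S.card * θ := by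
  classical
  set g := S.filter (fun s => θ * (Fintype.card Q : ℝ) ≤ num F s) with hg
  have hQ : (0 : ℝ) < Fintype.card Q := by exact_mod_cast Fintype.card_pos
  have h1 : (F.card : ℝ) = ∑ s ∈ S, (num F s : ℝ) := by
    rw [← sum_num hFS]; push_cast; rfl
  have h2 : ∑ s ∈ S, (num F s : ℝ) ≤ ∑ s ∈ S, (θ * Fintype.card Q +
      if θ * (Fintype.card Q : ℝ) ≤ num F s then (1 - θ) * Fintype.card Q else 0) := by
    refine Finset.sum_le_sum fun s hs => ?_
    split_ifs with h
    · have : (num F s : ℝ) ≤ Fintype.card Q := by exact_mod_cast num_le F s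
      linarith
    · push Not at h
      linarith
  rw [Finset.sum_add_distrib, Finset.sum_const, nsmul_eq_mul, ← Finset.sum_filter, ← hg,
    Finset.sum_const, nsmul_eq_mul] at h2
  have h3 : c * Fintype.card Q ≤ (g.card * (1 - θ) + S.card * θ) * Fintype.card Q := by
    calc c * Fintype.card Q ≤ F.card := hc
      _ ≤ S.card * (θ * Fintype.card Q) + g.card * ((1 - θ) * Fintype.card Q) := by
        rw [h1]; exact h2
      _ = _ := by ring
  exact le_of_mul_le_mul_right h3 hQ

end one

section two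

variable {K : Type} [Group K] [DecidableEq K]

/-- lower bound for the number of generators of normal subgroups of finite index -/
def RankLB (K : Type) [Group K] (ρ : ℝ) : Prop :=
  ∀ L : Subgroup K, L.Normal → L.FiniteIndex → ∀ T : Finset K,
    Subgroup.closure (T : Set K) = L → ρ * L.index ≤ (T.card : ℝ) - 1

/-- finite sets inject into finite quotients -/
def Sep (K : Type) [Group K] : Prop :=
  ∀ V : Finset K, ∃ L : Subgroup K, L.Normal ∧ L.FiniteIndex ∧
    ∀ x ∈ V, ∀ y ∈ V, x⁻¹ * y ∈ L → x = y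

theorem quot_card {ρ : ℝ} (hρ : RankLB K ρ) {L : Subgroup K} (hL : L.Normal)
    [Fintype (K ⧸ L)] [DecidableEq (K ⧸ L)] (hLf : L.FiniteIndex) {B : Finset K}
    {F : Finset ((K ⧸ L) × K)} (hF : Full (QuotientGroup.mk' L) B F) :
    (ρ + 1 - B.card) * Fintype.card (K ⧸ L) ≤ F.card := by
  obtain ⟨T, hT, hc⟩ := exists_gen (QuotientGroup.mk'_surjective L) hF
  rw [QuotientGroup.ker_mk'] at hT
  have h1 := hρ L hL hLf T hT
  have h2 : (L.index : ℝ) = Fintype.card (K ⧸ L) := by
    rw [Subgroup.index_eq_card, Nat.card_eq_fintype_card]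
  rw [h2] at h1
  have h3 : (T.card : ℝ) + Fintype.card (K ⧸ L) ≤
      Fintype.card (K ⧸ L) * B.card + F.card + 1 := by exact_mod_cast hc
  linarith

/-- The expansion inequality for two pairs. -/
theorem expand_two {ρ : ℝ} (hρ : RankLB K ρ) (hsep : Sep K) (S : Finset K)
    (hgen : Subgroup.closure (S : Set K) = ⊤) (h7 : 7 ≤ S.card)
    (hS : (S.card : ℝ) - 1 ≤ 9 / 8 * ρ) :
    ∃ P R : Finset K, P.card = 2 ∧ R.card = 2 ∧ ∀ A B : Finset K,
      A.card + B.card ≤ (insert 1 P * A ∪ insert 1 R * B).card := by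
  classical
  by_contra hcon
  push Not at hcon
  have hch : ∀ P R : Finset K, ∃ A B : Finset K, P.card = 2 → R.card = 2 →
      (insert 1 P * A ∪ insert 1 R * B).card < A.card + B.card := by
    intro P R
    by_cases h : P.card = 2 ∧ R.card = 2
    · obtain ⟨A, B, h'⟩ := hcon P R h.1 h.2
      exact ⟨A, B, fun _ _ => h'⟩
    · exact ⟨∅, ∅, fun h1 h2 => absurd ⟨h1, h2⟩ h⟩
  choose fA fB hf using hch
  obtain ⟨L, hL, hLf, hLV⟩ := hsep ((S.powerset ×ˢ S.powerset).biUnion
    (fun x => insert 1 x.1 * fA x.1 x.2 ∪ insert 1 x.2 * fB x.1 x.2))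
  have hfin : Finite (K ⧸ L) := Subgroup.finite_quotient_of_finiteIndex
  let _ : Fintype (K ⧸ L) := Fintype.ofFinite _
  obtain ⟨F, hFS, hF⟩ := exists_minFull (QuotientGroup.mk' L) ∅ (Finset.univ ×ˢ S)
    (full_univ _ ∅ S (by rw [Finset.coe_empty, Set.empty_union]; exact hgen))
  have hc := quot_card hρ hL hLf hF.1
  rw [Finset.card_empty, Nat.cast_zero, sub_zero] at hc
  have hg := many_good hFS (3 / 4) (by norm_num) _ hc
  set g := S.filter (fun s => 3 / 4 * (Fintype.card (K ⧸ L) : ℝ) ≤ num F s) with hgd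
  have h7' : (7 : ℝ) ≤ S.card := by exact_mod_cast h7
  have hg4 : (3 : ℝ) < g.card := by linarith
  have hg4' : 4 ≤ g.card := by exact_mod_cast hg4
  obtain ⟨P, hPg, hP⟩ := Finset.exists_subset_card_eq (show 2 ≤ g.card by omega)
  have hgP : 2 ≤ (g \ P).card := by
    rw [Finset.card_sdiff_of_subset hPg]; omega
  obtain ⟨R, hRg, hR⟩ := Finset.exists_subset_card_eq hgP
  have hgS : g ⊆ S := Finset.filter_subset _ _
  have hPR : Disjoint P R := by
    rw [Finset.disjoint_left]
    intro x hx hx'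
    exact (Finset.mem_sdiff.1 (hRg hx')).2 hx
  have hsum : ∀ P : Finset K, P ⊆ g → P.card = 2 →
      (Fintype.card (K ⧸ L) : ℝ) ≤ ∑ s ∈ P, (num F s : ℝ) := by
    intro P hPg hP
    have h1 : ∑ s ∈ P, (3 / 4 * (Fintype.card (K ⧸ L) : ℝ)) ≤ ∑ s ∈ P, (num F s : ℝ) :=
      Finset.sum_le_sum fun s hs => (Finset.mem_filter.1 (hPg hs)).2
    rw [Finset.sum_const, hP, nsmul_eq_mul] at h1
    have h2 : (0 : ℝ) ≤ Fintype.card (K ⧸ L) := Nat.cast_nonneg _
    push_cast at h1
    linarith
  refine absurd (hf P R hP hR) (not_lt.2 ?_)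
  refine two_sets (QuotientGroup.mk'_surjective L) hF P R hPR (hsum P hPg hP)
    (hsum R (hRg.trans Finset.sdiff_subset) hR) _ _ ?_
  intro x hx y hy hxy
  have hsub : ∀ z ∈ insert 1 P * fA P R ∪ insert 1 R * fB P R,
      z ∈ (S.powerset ×ˢ S.powerset).biUnion
        (fun x => insert 1 x.1 * fA x.1 x.2 ∪ insert 1 x.2 * fB x.1 x.2) := by
    intro z hz
    rw [Finset.mem_biUnion]
    exact ⟨(P, R), Finset.mem_product.2 ⟨Finset.mem_powerset.2 (hPg.trans hgS),
      Finset.mem_powerset.2 ((hRg.trans Finset.sdiff_subset).trans hgS)⟩, hz⟩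
  refine hLV x (hsub x (Finset.mem_coe.1 hx)) y (hsub y (Finset.mem_coe.1 hy)) ?_
  exact QuotientGroup.eq.1 hxy

/-- The expansion inequality for an element of infinite order and a pair. -/
theorem expand_one {ρ : ℝ} (hρ : RankLB K ρ) (hsep : Sep K) (S : Finset K)
    (hgen : Subgroup.closure (S : Set K) = ⊤) (h7 : 7 ≤ S.card)
    (hS : (S.card : ℝ) - 1 ≤ 9 / 8 * ρ) (a : K)
    (ha : (Subgroup.closure (({a} : Finset K) : Set K) : Set K).Infinite) :
    ∃ R : Finset K, R.card = 2 ∧ ∀ A B : Finset K,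
      A.card + B.card ≤ (insert 1 {a} * A ∪ insert 1 R * B).card := by
  classical
  by_contra hcon
  push Not at hcon
  have hch : ∀ R : Finset K, ∃ A B : Finset K, R.card = 2 →
      (insert 1 {a} * A ∪ insert 1 R * B).card < A.card + B.card := by
    intro R
    by_cases h : R.card = 2
    · obtain ⟨A, B, h'⟩ := hcon R h
      exact ⟨A, B, fun _ => h'⟩
    · exact ⟨∅, ∅, fun h1 => absurd h1 h⟩
  choose fA fB hf using hch
  obtain ⟨L, hL, hLf, hLV⟩ := hsep (S.powerset.biUnion
    (fun x => insert 1 {a} * fA x ∪ insert 1 x * fB x))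
  have hfin : Finite (K ⧸ L) := Subgroup.finite_quotient_of_finiteIndex
  let _ : Fintype (K ⧸ L) := Fintype.ofFinite _
  obtain ⟨F, hFS, hF⟩ := exists_minFull (QuotientGroup.mk' L) {a} (Finset.univ ×ˢ S)
    (full_univ _ {a} S (by
      rw [eq_top_iff, ← hgen]
      exact Subgroup.closure_mono Set.subset_union_right))
  have hc := quot_card hρ hL hLf hF.1
  rw [Finset.card_singleton, Nat.cast_one, add_sub_cancel_right] at hc
  have hg := many_good hFS (1 / 2) (by norm_num) _ hc
  set g := S.filter (fun s => 1 / 2 * (Fintype.card (K ⧸ L) : ℝ) ≤ num F s) with hgd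
  have h7' : (7 : ℝ) ≤ S.card := by exact_mod_cast h7
  have hg2 : (1 : ℝ) < g.card := by linarith
  have hg2' : 2 ≤ g.card := by exact_mod_cast hg2
  obtain ⟨R, hRg, hR⟩ := Finset.exists_subset_card_eq hg2'
  have hgS : g ⊆ S := Finset.filter_subset _ _
  have hsum : (Fintype.card (K ⧸ L) : ℝ) ≤ ∑ s ∈ R, (num F s : ℝ) := by
    have h1 : ∑ s ∈ R, (1 / 2 * (Fintype.card (K ⧸ L) : ℝ)) ≤ ∑ s ∈ R, (num F s : ℝ) :=
      Finset.sum_le_sum fun s hs => (Finset.mem_filter.1 (hRg hs)).2
    rw [Finset.sum_const, hR, nsmul_eq_mul] at h1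
    push_cast at h1
    linarith
  refine absurd (hf R hR) (not_lt.2 ?_)
  refine one_set (QuotientGroup.mk'_surjective L) hF ha R hsum _ _ ?_
  intro x hx y hy hxy
  have hsub : ∀ z ∈ insert 1 {a} * fA R ∪ insert 1 R * fB R,
      z ∈ S.powerset.biUnion (fun x => insert 1 {a} * fA x ∪ insert 1 x * fB x) := by
    intro z hz
    rw [Finset.mem_biUnion]
    exact ⟨R, Finset.mem_powerset.2 (hRg.trans hgS), hz⟩
  refine hLV x (hsub x (Finset.mem_coe.1 hx)) y (hsub y (Finset.mem_coe.1 hy)) ?_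
  exact QuotientGroup.eq.1 hxy

end two

end Pool.Agent.Q191.TR
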