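import Pool.Agent.Q191.TR.Up

/-!
# Tarski numbers: final forms
-/

set_option autoImplicit false
set_option linter.unusedVariables false
set_option linter.unusedSectionVars false

open MeasureTheory

namespace Pool.Agent.Q191.TR

open Pool.Agent.W336.CS Pool.Agent.W246.TN

/-- cost larger than one gives positive rank gradient -/
theorem rg_of_cost {H : Type} [Group H] [Countable H] {ε : ENNReal} (hε : 0 < ε)
    (h : ∀ c : ENNReal, c < 1 + ε → ¬ CostLe H c) : ∃ δ : ℝ, 0 < δ ∧ RGpos H δ := by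
  obtain ⟨d, hd0, hd1⟩ := exists_between hε
  have hdt : d ≠ ⊤ := (lt_of_lt_of_le hd1 le_top).ne
  refine ⟨d.toReal, ENNReal.toReal_pos hd0.ne' hdt, ?_⟩
  intro N hN T hT
  refine rank_of_cost hdt (h _ ?_) N hN T hT
  exact (ENNReal.add_lt_add_iff_left ENNReal.one_ne_top).2 hd1

/-- In a torsion group there is no paradoxical decomposition with five pieces. -/
theorem not_parad_aux {G : Type} [Group G] (hG : ∀ g : G, IsOfFinOrder g) {m n : ℕ} (hm : m ≤ 2)
    (A : Fin m → Set G) (B : Fin n → Set G) (g : Fin m → G) (h : Fin n → G)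
    (h1 : ∀ x : G, ∃! p : Fin m ⊕ Fin n, x ∈ Sum.elim A B p)
    (h2 : ∀ x : G, ∃! i : Fin m, (g i)⁻¹ * x ∈ A i)
    (h3 : ∀ x : G, ∃! j : Fin n, (h j)⁻¹ * x ∈ B j) : False := by
  classical
  -- a point in some `B`
  obtain ⟨j, hj, -⟩ := h3 1
  set b : G := (h j)⁻¹ * 1 with hb
  -- the complement of the `A`'s
  have hdisj : ∀ (i : Fin m) (j : Fin n) (x : G), x ∈ A i → x ∈ B j → False := by
    intro i j x hx hy
    have := (h1 x).unique (y₁ := Sum.inl i) (y₂ := Sum.inr j) hx hy
    exact absurd this (by simp)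
  have hAA : ∀ (i i' : Fin m) (x : G), x ∈ A i → x ∈ A i' → i = i' := by
    intro i i' x hx hy
    have := (h1 x).unique (y₁ := Sum.inl i) (y₂ := Sum.inl i') hx hy
    exact Sum.inl_injective this
  interval_cases m
  · obtain ⟨i, -⟩ := h2 1
    exact i.elim0
  · obtain ⟨i, hi, -⟩ := h2 (g 0 * b)
    have hi0 : i = 0 := Subsingleton.elim _ _
    subst hi0
    rw [inv_mul_cancel_left] at hi
    exact hdisj 0 j b hi hj
  · -- `t A 1` is the complement of `A 0`
    set t : G := (g 0)⁻¹ * g 1 with ht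
    have h4 : ∀ x : G, (t⁻¹ * x ∈ A 1 ↔ x ∉ A 0) := by
      intro x
      obtain ⟨i, hi, hu⟩ := h2 (g 0 * x)
      have e1 : (g 1)⁻¹ * (g 0 * x) = t⁻¹ * x := by rw [ht]; group
      constructor
      · intro hx hx0
        have u1 := hu 1 (by show (g 1)⁻¹ * (g 0 * x) ∈ A 1; rw [e1]; exact hx)
        have u0 := hu 0 (by
          show (g 0)⁻¹ * (g 0 * x) ∈ A 0
          rw [inv_mul_cancel_left]; exact hx0)
        rw [← u0] at u1
        exact absurd u1 (by decide)
      · intro hx0
        fin_cases i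
        · exfalso
          apply hx0
          have : (g 0)⁻¹ * (g 0 * x) ∈ A 0 := hi
          rwa [inv_mul_cancel_left] at this
        · have : (g 1)⁻¹ * (g 0 * x) ∈ A 1 := hi
          rwa [e1] at this
    -- `A 1 ⊆ t A 1`
    have h5 : ∀ x : G, x ∈ A 1 → t⁻¹ * x ∈ A 1 := by
      intro x hx
      rw [h4]
      intro hx0
      exact absurd (hAA 0 1 x hx0 hx) (by decide)
    have h6 : t⁻¹ * b ∈ A 1 := by
      rw [h4]
      exact fun hb0 => hdisj 0 j b hb0 hj
    have h7 : ∀ k : ℕ, (t⁻¹) ^ (k + 1) * b ∈ A 1 := by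
      intro k
      induction k with
      | zero => rw [zero_add, pow_one]; exact h6
      | succ k ih =>
        have := h5 _ ih
        rwa [← mul_assoc, ← pow_succ'] at this
    obtain ⟨k, hk, hk1⟩ := isOfFinOrder_iff_pow_eq_one.1 (hG t⁻¹)
    have h8 := h7 (k - 1)
    rw [Nat.sub_add_cancel hk, hk1, one_mul] at h8
    exact hdisj 1 j b h8 hj

theorem not_parad_five {G : Type} [Group G] (hG : ∀ g : G, IsOfFinOrder g) : ¬ Parad G 5 := by
  rintro ⟨m, n, hmn, A, B, g, h, h1, h2, h3⟩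
  rcases le_or_gt m 2 with hm | hm
  · exact not_parad_aux hG hm A B g h h1 h2 h3
  · refine not_parad_aux hG (show n ≤ 2 by omega) B A h g ?_ h3 h2
    intro x
    obtain ⟨p, hp, hu⟩ := h1 x
    refine ⟨p.swap, ?_, ?_⟩
    · rcases p with p | p <;> exact hp
    · intro q hq
      have := hu q.swap (by rcases q with q | q <;> exact hq)
      rw [← this, Sum.swap_swap]

end Pool.Agent.Q191.TR
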