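import Pool.Agent.Q191.TR.Rank
import Pool.Agent.W246.TN.Fin

/-!
# Finite quotients and random forests: minimal connecting sets of edges
-/

set_option autoImplicit false
set_option linter.unusedVariables false
set_option linter.unusedSectionVars false

namespace Pool.Agent.Q191.TR

open Pool.Agent.W336.CS

variable {K Q : Type} [Group K] [Group Q] [Fintype Q] [DecidableEq Q] [DecidableEq K]

theorem full_univ (π : K →* Q) (B S : Finset K)
    (hgen : Subgroup.closure ((B : Set K) ∪ (S : Set K)) = ⊤) :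
    Full π B (Finset.univ ×ˢ S) := by
  intro g
  have := Conn.closure (B := (B : Set K)) (ω := lift π (Finset.univ ×ˢ S))
    (S := (B : Set K) ∪ (S : Set K)) (by
      rintro a s (hs | hs)
      · exact Conn.base hs a
      · exact Conn.edge (lift_eq.2 (Finset.mem_product.2 ⟨Finset.mem_univ _, Finset.mem_coe.1 hs⟩)))
    (u := g) (by rw [hgen]; trivial) 1
  rwa [mul_one] at this

/-- a minimal connecting set of edges -/
def MinFull (π : K →* Q) (B : Finset K) (F : Finset (Q × K)) : Prop :=
  Full π B F ∧ ∀ e ∈ F, ¬ Full π B (F.erase e)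

theorem exists_minFull (π : K →* Q) (B : Finset K) (F0 : Finset (Q × K)) (h : Full π B F0) :
    ∃ F ⊆ F0, MinFull π B F := by
  classical
  obtain ⟨F, hF, hmin⟩ : ∃ F ∈ F0.powerset.filter (Full π B),
      ∀ F' ∈ F0.powerset.filter (Full π B), F.card ≤ F'.card := by
    apply Finset.exists_min_image
    exact ⟨F0, Finset.mem_filter.2 ⟨Finset.mem_powerset.2 subset_rfl, h⟩⟩
  rw [Finset.mem_filter, Finset.mem_powerset] at hF
  refine ⟨F, hF.1, hF.2, ?_⟩
  intro e he hfull
  have := hmin (F.erase e) (Finset.mem_filter.2 ⟨Finset.mem_powerset.2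
    ((Finset.erase_subset _ _).trans hF.1), hfull⟩)
  have := Finset.card_erase_lt_of_mem he
  omega

/-- the part of a translate of the lifted edges which starts in `V` -/
def part (π : K →* Q) (F : Finset (Q × K)) (V : Finset K) (q : Q) : Cfg K :=
  fun e => decide (e.1 ∈ V ∧ (π e.1 * q, e.2) ∈ F)

theorem part_eq {π : K →* Q} {F : Finset (Q × K)} {V : Finset K} {q : Q} {e : K × K} :
    part π F V q e = true ↔ e.1 ∈ V ∧ (π e.1 * q, e.2) ∈ F := by simp [part]

/-- locally a minimal connecting set of edges is a forest -/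
theorem part_forest {π : K →* Q} (hπ : Function.Surjective π) {B : Finset K}
    {F : Finset (Q × K)} (hF : MinFull π B F) {V : Finset K} (hV : Set.InjOn π V) (q : Q) :
    Forest (B : Set K) (part π F V q) := by
  intro e he hcon
  rw [part_eq] at he
  set F' := F.erase (π e.1 * q, e.2) with hF'
  refine hF.2 _ he.2 ?_
  intro g
  refine Conn.hull (fun u hu a => Conn.base hu a) ?_ (hF.1 g)
  intro a s hs
  rw [lift_eq] at hs
  by_cases h : (π a, s) = (π e.1 * q, e.2)
  · have ha := (Prod.mk.inj h).1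
    have hs' := (Prod.mk.inj h).2
    subst hs'
    -- translate the path
    have hn : π ((e.1)⁻¹ * a) = q := by rw [map_mul, map_inv, ha, inv_mul_cancel_left]
    have h2 : Conn (B : Set K) (shift ((e.1)⁻¹ * a) (lift π F')) e.1 (e.2 * e.1) := by
      refine Conn.mono (Set.Subset.refl _) ?_ hcon
      intro z hz
      by_cases hze : z = e
      · subst hze; simp at hz
      · rw [Function.update_of_ne hze, part_eq] at hz
        show lift π F' (z.1 * ((e.1)⁻¹ * a), z.2) = true
        rw [lift_eq, map_mul, hn, hF', Finset.mem_erase]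
        refine ⟨?_, hz.2⟩
        intro hcon2
        apply hze
        have h3 := mul_right_cancel (Prod.mk.inj hcon2).1
        exact Prod.ext (hV (Finset.mem_coe.2 hz.1) (Finset.mem_coe.2 he.1) h3)
          (Prod.mk.inj hcon2).2
    rw [conn_shift] at h2
    have h3 : e.1 * ((e.1)⁻¹ * a) = a := mul_inv_cancel_left _ _
    rw [mul_assoc, h3] at h2
    exact h2
  · refine Conn.edge (lift_eq.2 ?_)
    rw [Finset.mem_erase]
    exact ⟨h, hs⟩

/-- the number of edges with label `s` -/
def num (F : Finset (Q × K)) (s : K) : ℕ := ((Finset.univ : Finset Q).filter (fun q => (q, s) ∈ F)).card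

theorem num_le (F : Finset (Q × K)) (s : K) : num F s ≤ Fintype.card Q :=
  (Finset.card_filter_le _ _).trans (by rw [Finset.card_univ])

theorem num_shift (F : Finset (Q × K)) (s : K) (p : Q) :
    ((Finset.univ : Finset Q).filter (fun q => (p * q, s) ∈ F)).card = num F s := by
  unfold num
  refine Finset.card_bij (fun q _ => p * q) ?_ ?_ ?_
  · intro q hq
    rw [Finset.mem_filter] at hq ⊢
    exact ⟨Finset.mem_univ _, hq.2⟩
  · intro q _ q' _ h
    exact mul_left_cancel h
  · intro q hq
    rw [Finset.mem_filter] at hq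
    refine ⟨p⁻¹ * q, ?_, mul_inv_cancel_left _ _⟩
    rw [Finset.mem_filter, mul_inv_cancel_left]
    exact ⟨Finset.mem_univ _, hq.2⟩

theorem sum_num {F : Finset (Q × K)} {S : Finset K} (h : F ⊆ Finset.univ ×ˢ S) :
    ∑ s ∈ S, num F s = F.card := by
  unfold num
  rw [Finset.card_eq_sum_card_fiberwise (f := Prod.snd) (t := S)]
  · refine Finset.sum_congr rfl fun s hs => ?_
    refine Finset.card_bij (fun q _ => (q, s)) ?_ ?_ ?_
    · intro q hq
      rw [Finset.mem_filter] at hq ⊢
      exact ⟨hq.2, rfl⟩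
    · intro q _ q' _ h
      exact (Prod.mk.inj h).1
    · rintro ⟨q, s'⟩ hq
      rw [Finset.mem_filter] at hq
      obtain ⟨h1, rfl⟩ := hq
      exact ⟨q, Finset.mem_filter.2 ⟨Finset.mem_univ _, h1⟩, rfl⟩
  · intro e he
    exact Finset.mem_coe.2 (Finset.mem_product.1 (h (Finset.mem_coe.1 he))).2

/-- **Counting edges in a random translate.** -/
theorem count {π : K →* Q} (hπ : Function.Surjective π) {B : Finset K}
    {F : Finset (Q × K)} (hF : MinFull π B F) {V D : Finset K} (hV : Set.InjOn π V)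
    (Z : Finset (K × K)) (hZ : ∀ e ∈ Z, e.1 ∈ V ∧ e.2 * e.1 ∈ V)
    (hBD : ∀ b ∈ B, ∀ x ∈ D, b * x ∈ V) :
    (∑ e ∈ Z, (num F e.2 : ℝ)) ≤ Fintype.card Q *
      (((V \ D).card : ℝ) + D.card / Nat.card (Subgroup.closure (B : Set K))) := by
  classical
  have h1 : ∀ q : Q, ((Z.filter (fun e => (π e.1 * q, e.2) ∈ F)).card : ℝ) ≤
      ((V \ D).card : ℝ) + D.card / Nat.card (Subgroup.closure (B : Set K)) := by
    intro q
    refine Pool.Agent.W246.TN.cnt' B D V (part π F V q) _ ?_ hBD
    intro e he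
    rw [Finset.mem_filter] at he
    have h2 := hZ e he.1
    have h3 : part π F V q e = true := part_eq.2 ⟨h2.1, he.2⟩
    exact ⟨h2.1, h2.2, h3, part_forest hπ hF hV q e h3⟩
  have h4 : (∑ e ∈ Z, (num F e.2 : ℝ)) =
      ∑ q : Q, ((Z.filter (fun e => (π e.1 * q, e.2) ∈ F)).card : ℝ) := by
    have h5 : ∀ e : K × K, (num F e.2 : ℝ) = ∑ q : Q, if (π e.1 * q, e.2) ∈ F then (1 : ℝ) else 0 := by
      intro e
      rw [← num_shift F e.2 (π e.1), Finset.card_filter]
      push_cast
      rfl
    have h6 : ∀ q : Q, ((Z.filter (fun e => (π e.1 * q, e.2) ∈ F)).card : ℝ) =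
        ∑ e ∈ Z, if (π e.1 * q, e.2) ∈ F then (1 : ℝ) else 0 := by
      intro q
      rw [Finset.card_filter]
      push_cast
      rfl
    simp only [h5, h6]
    exact Finset.sum_comm
  rw [h4]
  calc ∑ q : Q, ((Z.filter (fun e => (π e.1 * q, e.2) ∈ F)).card : ℝ)
      ≤ ∑ q : Q, (((V \ D).card : ℝ) + D.card / Nat.card (Subgroup.closure (B : Set K))) :=
        Finset.sum_le_sum fun q _ => h1 q
    _ = _ := by rw [Finset.sum_const, Finset.card_univ, nsmul_eq_mul]

end Pool.Agent.Q191.TR
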