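import Pool.Agent.W336.CS.Basic

/-!
# Finite quotients and random forests: the rank of the kernel

`π : K → Q` is a surjective homomorphism onto a finite group, `B` a finite set of base labels and
`F` a finite set of edges of the Schreier graph of `Q`.
-/

set_option autoImplicit false
set_option linter.unusedVariables false
set_option linter.unusedSectionVars false

namespace Pool.Agent.Q191.TR

open Pool.Agent.W336.CS

variable {K Q : Type} [Group K] [Group Q] [Fintype Q] [DecidableEq Q] [DecidableEq K]

/-- the lift of the edges `F` to the group `K` -/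
def lift (π : K →* Q) (F : Finset (Q × K)) : Cfg K := fun e => decide ((π e.1, e.2) ∈ F)

theorem lift_eq {π : K →* Q} {F : Finset (Q × K)} {a s : K} :
    lift π F (a, s) = true ↔ (π a, s) ∈ F := by simp [lift]

/-- everything is connected -/
def Full (π : K →* Q) (B : Finset K) (F : Finset (Q × K)) : Prop :=
  ∀ g, Conn (B : Set K) (lift π F) 1 g

/-- the element of the kernel which belongs to an edge -/
def nel (π : K →* Q) (t : Q → K) (e : Q × K) : K := (t (π e.2 * e.1))⁻¹ * (e.2 * t e.1)

/-- all edges, base or not -/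
def edges (B : Finset K) (F : Finset (Q × K)) : Finset (Q × K) := (Finset.univ ×ˢ B) ∪ F

theorem card_edges (B : Finset K) (F : Finset (Q × K)) :
    (edges B F).card ≤ Fintype.card Q * B.card + F.card := by
  refine (Finset.card_union_le _ _).trans ?_
  rw [Finset.card_product, Finset.card_univ]

/-- a partial spanning tree on `A` -/
def Tree (π : K →* Q) (E : Finset (Q × K)) (A : Finset Q) (t : Q → K) (f : Q → Q × K) : Prop :=
  (∀ q, π (t q) = q) ∧ t 1 = 1 ∧ 1 ∈ A ∧
    (∀ q ∈ A, q ≠ 1 → f q ∈ E ∧ (f q).1 ∈ A ∧ π (f q).2 * (f q).1 ∈ A ∧ nel π t (f q) = 1) ∧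
    ∀ q ∈ A, q ≠ 1 → ∀ q' ∈ A, q' ≠ 1 → f q = f q' → q = q'

theorem tree_ext {π : K →* Q} (hπ : Function.Surjective π) {B : Finset K} {F : Finset (Q × K)}
    (hF : Full π B F) {A : Finset Q} {t : Q → K} {f : Q → Q × K} (h : Tree π (edges B F) A t f)
    (hA : A ≠ Finset.univ) :
    ∃ (q' : Q) (t' : Q → K) (f' : Q → Q × K), q' ∉ A ∧ Tree π (edges B F) (insert q' A) t' f' := by
  classical
  obtain ⟨h1, h2, h3, h4, h5⟩ := h
  -- a crossing edge
  have hcross : ∃ e ∈ edges B F, (e.1 ∈ A ∧ π e.2 * e.1 ∉ A) ∨ (e.1 ∉ A ∧ π e.2 * e.1 ∈ A) := by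
    by_contra hcon
    push Not at hcon
    apply hA
    rw [Finset.eq_univ_iff_forall]
    intro q
    obtain ⟨g, rfl⟩ := hπ q
    have := Conn.lift (fun a b => (π a ∈ A ↔ π b ∈ A)) (fun a => Iff.rfl) (fun a b h => h.symm)
      (fun a b c h h' => h.trans h') ?_ ?_ (hF g)
    · rw [← this, map_one]; exact h3
    · intro u hu a
      have he : (π a, u) ∈ edges B F := by
        unfold edges
        refine Finset.mem_union_left _ (Finset.mem_product.2 ⟨Finset.mem_univ _, ?_⟩)
        exact Finset.mem_coe.1 hu
      obtain ⟨k1, k2⟩ := hcon _ he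
      rw [map_mul]
      exact ⟨fun h => k1 h, fun h => by_contra fun h' => k2 h' h⟩
    · intro a s hs
      have he : (π a, s) ∈ edges B F := Finset.mem_union_right _ (lift_eq.1 hs)
      obtain ⟨k1, k2⟩ := hcon _ he
      rw [map_mul]
      exact ⟨fun h => k1 h, fun h => by_contra fun h' => k2 h' h⟩
  obtain ⟨e, heE, he⟩ := hcross
  -- the new vertex and its section value
  obtain ⟨q', k, hq'A, hk, hn, hends⟩ : ∃ (q' : Q) (k : K), q' ∉ A ∧ π k = q' ∧
      (∀ t' : Q → K, t' q' = k → (∀ q ∈ A, t' q = t q) → nel π t' e = 1) ∧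
      e.1 ∈ insert q' A ∧ π e.2 * e.1 ∈ insert q' A ∧ (e.1 = q' ∨ π e.2 * e.1 = q') := by
    rcases he with ⟨ha, hb⟩ | ⟨ha, hb⟩
    · refine ⟨π e.2 * e.1, e.2 * t e.1, hb, by rw [map_mul, h1], ?_, ?_, ?_, Or.inr rfl⟩
      · intro t' ht1 ht2
        unfold nel
        rw [ht1, ht2 _ ha, inv_mul_cancel]
      · exact Finset.mem_insert_of_mem ha
      · exact Finset.mem_insert_self _ _
    · refine ⟨e.1, (e.2)⁻¹ * t (π e.2 * e.1), ha, ?_, ?_, ?_, ?_, Or.inl rfl⟩
      · rw [map_mul, h1, map_inv, inv_mul_cancel_left]
      · intro t' ht1 ht2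
        unfold nel
        rw [ht1, ht2 _ hb, mul_inv_cancel_left, inv_mul_cancel]
      · exact Finset.mem_insert_self _ _
      · exact Finset.mem_insert_of_mem hb
  have hq'1 : q' ≠ 1 := fun h => hq'A (h ▸ h3)
  have hupd : ∀ q ∈ A, Function.update t q' k q = t q := fun q hq => by
    rw [Function.update_of_ne]
    rintro rfl
    exact hq'A hq
  have hupf : ∀ q ∈ A, Function.update f q' e q = f q := fun q hq => by
    rw [Function.update_of_ne]
    rintro rfl
    exact hq'A hq
  refine ⟨q', Function.update t q' k, Function.update f q' e, hq'A, ?_, ?_, ?_, ?_, ?_⟩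
  · intro q
    by_cases h : q = q'
    · subst h; rw [Function.update_self]; exact hk
    · rw [Function.update_of_ne h]; exact h1 q
  · rw [hupd 1 h3]; exact h2
  · exact Finset.mem_insert_of_mem h3
  · intro q hq hq1
    rw [Finset.mem_insert] at hq
    rcases hq with rfl | hq
    · rw [Function.update_self]
      exact ⟨heE, hends.1, hends.2.1, hn _ (Function.update_self _ _ _) hupd⟩
    · rw [hupf q hq]
      obtain ⟨k1, k2, k3, k4⟩ := h4 q hq hq1
      refine ⟨k1, Finset.mem_insert_of_mem k2, Finset.mem_insert_of_mem k3, ?_⟩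
      unfold nel at k4 ⊢
      rw [hupd _ k3, hupd _ k2]
      exact k4
  · have hne : ∀ q ∈ A, q ≠ 1 → f q ≠ e := by
      intro q hq hq1 hcon
      obtain ⟨k1, k2, k3, k4⟩ := h4 q hq hq1
      rw [hcon] at k2 k3
      rcases hends.2.2 with h | h
      · exact hq'A (h ▸ k2)
      · exact hq'A (h ▸ k3)
    intro q hq hq1 p hp hp1 hqp
    rw [Finset.mem_insert] at hq hp
    rcases hq with rfl | hq <;> rcases hp with hp' | hp
    · exact hp'.symm
    · rw [Function.update_self, hupf p hp] at hqp
      exact absurd hqp.symm (hne p hp hp1)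
    · subst hp'
      rw [Function.update_self, hupf q hq] at hqp
      exact absurd hqp (hne q hq hq1)
    · rw [hupf q hq, hupf p hp] at hqp
      exact h5 q hq hq1 p hp hp1 hqp

theorem exists_tree {π : K →* Q} (hπ : Function.Surjective π) {B : Finset K}
    {F : Finset (Q × K)} (hF : Full π B F) :
    ∃ (t : Q → K) (f : Q → Q × K), Tree π (edges B F) Finset.univ t f := by
  classical
  have key : ∀ n : ℕ, ∀ (A : Finset Q) (t : Q → K) (f : Q → Q × K), Tree π (edges B F) A t f →
      Fintype.card Q - A.card ≤ n →
      ∃ (t : Q → K) (f : Q → Q × K), Tree π (edges B F) Finset.univ t f := by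
    intro n
    induction n with
    | zero =>
      intro A t f h hn
      have : A = Finset.univ := by
        rw [← Finset.card_eq_iff_eq_univ]
        have := Finset.card_le_univ A
        omega
      subst this
      exact ⟨t, f, h⟩
    | succ n ih =>
      intro A t f h hn
      by_cases hA : A = Finset.univ
      · subst hA; exact ⟨t, f, h⟩
      · obtain ⟨q', t', f', hq', h'⟩ := tree_ext hπ hF h hA
        refine ih _ t' f' h' ?_
        rw [Finset.card_insert_of_notMem hq']
        omega
  obtain ⟨t0, ht0⟩ : ∃ t0 : Q → K, ∀ q, π (t0 q) = q := ⟨fun q => (hπ q).choose,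
    fun q => (hπ q).choose_spec⟩
  refine key _ {1} (Function.update t0 1 1) (fun q => (q, 1)) ?_ le_rfl
  refine ⟨?_, Function.update_self _ _ _, Finset.mem_singleton_self _, ?_, ?_⟩
  · intro q
    by_cases h : q = 1
    · subst h; rw [Function.update_self, map_one]
    · rw [Function.update_of_ne h]; exact ht0 q
  · intro q hq hq1
    exact absurd (Finset.mem_singleton.1 hq) hq1
  · intro q hq hq1
    exact absurd (Finset.mem_singleton.1 hq) hq1

/-- **The rank of the kernel.** -/
theorem exists_gen {π : K →* Q} (hπ : Function.Surjective π) {B : Finset K}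
    {F : Finset (Q × K)} (hF : Full π B F) :
    ∃ T : Finset K, Subgroup.closure (T : Set K) = π.ker ∧
      T.card + Fintype.card Q ≤ Fintype.card Q * B.card + F.card + 1 := by
  classical
  obtain ⟨t, f, h1, h2, h3, h4, h5⟩ := exists_tree hπ hF
  set R : Finset (Q × K) := (Finset.univ.erase (1 : Q)).image f with hR
  have hRc : R.card + 1 = Fintype.card Q := by
    rw [hR, Finset.card_image_of_injOn, Finset.card_erase_of_mem (Finset.mem_univ _),
      Finset.card_univ]
    · have : 0 < Fintype.card Q := Fintype.card_pos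
      omega
    · intro q hq p hp hqp
      have hq' : q ≠ 1 := Finset.ne_of_mem_erase (Finset.mem_coe.1 hq)
      have hp' : p ≠ 1 := Finset.ne_of_mem_erase (Finset.mem_coe.1 hp)
      exact h5 q (Finset.mem_univ _) hq' p (Finset.mem_univ _) hp' hqp
  have hRE : R ⊆ edges B F := by
    intro e he
    rw [hR, Finset.mem_image] at he
    obtain ⟨q, hq, rfl⟩ := he
    exact (h4 q (Finset.mem_univ _) (Finset.ne_of_mem_erase hq)).1
  have hR1 : ∀ e ∈ R, nel π t e = 1 := by
    intro e he
    rw [hR, Finset.mem_image] at he
    obtain ⟨q, hq, rfl⟩ := he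
    exact (h4 q (Finset.mem_univ _) (Finset.ne_of_mem_erase hq)).2.2.2
  refine ⟨(edges B F \ R).image (nel π t), ?_, ?_⟩
  · apply le_antisymm
    · rw [Subgroup.closure_le]
      intro x hx
      obtain ⟨e, he, rfl⟩ := Finset.mem_image.1 (Finset.mem_coe.1 hx)
      show π _ = 1
      unfold nel
      rw [map_mul, map_inv, map_mul, h1, h1, inv_mul_cancel]
    · set C : Subgroup K := Subgroup.closure (((edges B F \ R).image (nel π t) : Finset K) : Set K)
        with hC
      have hE : ∀ e ∈ edges B F, nel π t e ∈ C := by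
        intro e he
        by_cases heR : e ∈ R
        · rw [hR1 e heR]; exact C.one_mem
        · exact Subgroup.subset_closure (Finset.mem_coe.2 (Finset.mem_image.2
            ⟨e, Finset.mem_sdiff.2 ⟨he, heR⟩, rfl⟩))
      have hstep : ∀ a s : K, (t (π (s * a)))⁻¹ * (s * a) =
          nel π t (π a, s) * ((t (π a))⁻¹ * a) := by
        intro a s
        unfold nel
        simp only [map_mul]
        group
      intro g hg
      have hg' : π g = 1 := hg
      have hconn := Conn.lift (fun a b => ((t (π b))⁻¹ * b) * ((t (π a))⁻¹ * a)⁻¹ ∈ C)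
        (fun a => by
          show _ * _ ∈ C
          rw [mul_inv_cancel]; exact C.one_mem)
        (fun a b h => by
          show _ * _ ∈ C
          have := C.inv_mem h
          rwa [mul_inv_rev, inv_inv] at this)
        (fun a b c h h' => by
          show _ * _ ∈ C
          have := C.mul_mem h' h
          rwa [mul_assoc, inv_mul_cancel_left] at this)
        (by
          intro u hu a
          show _ * _ ∈ C
          rw [hstep, mul_inv_cancel_right]
          apply hE
          unfold edges
          exact Finset.mem_union_left _ (Finset.mem_product.2 ⟨Finset.mem_univ _,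
            Finset.mem_coe.1 hu⟩))
        (by
          intro a s hs
          show _ * _ ∈ C
          rw [hstep, mul_inv_cancel_right]
          apply hE
          exact Finset.mem_union_right _ (lift_eq.1 hs))
        (hF g)
      simpa [hg', h2] using hconn
  · have h6 : ((edges B F \ R).image (nel π t)).card + R.card ≤ (edges B F).card := by
      have := Finset.card_image_le (s := edges B F \ R) (f := nel π t)
      rw [Finset.card_sdiff_of_subset hRE] at this
      have := Finset.card_le_card hRE
      omega
    have h7 := card_edges B F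
    omega

end Pool.Agent.Q191.TR
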