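import Pool.Agent.Q191.TR.Choose

/-!
# Paradoxical decompositions of groups with a residually finite section of positive rank gradient
-/

set_option autoImplicit false
set_option linter.unusedVariables false
set_option linter.unusedSectionVars false

namespace Pool.Agent.Q191.TR

open Pool.Agent.W336.CS Pool.Agent.W246.TN

/-- Selections lift along surjections. -/
theorem select_quot {M H : Type} [Group M] [Group H] [DecidableEq M] (f : M →* H)
    (hf : Function.Surjective f) (U T : Finset H) (φ : H ⊕ H → H) (hφ : Function.Injective φ)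
    (hl : ∀ x, φ (Sum.inl x) * x⁻¹ ∈ U) (hr : ∀ x, φ (Sum.inr x) * x⁻¹ ∈ T) :
    ∃ s : H → M, s 1 = 1 ∧ ∃ ψ : M ⊕ M → M, Function.Injective ψ ∧
      (∀ x, ψ (Sum.inl x) * x⁻¹ ∈ U.image s) ∧ ∀ x, ψ (Sum.inr x) * x⁻¹ ∈ T.image s := by
  classical
  obtain ⟨s, hs1, hs⟩ : ∃ s : H → M, s 1 = 1 ∧ ∀ h, f (s h) = h := by
    choose s0 hs0 using hf
    refine ⟨Function.update s0 1 1, Function.update_self _ _ _, ?_⟩
    intro h
    by_cases hh : h = 1
    · subst hh; rw [Function.update_self, map_one]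
    · rw [Function.update_of_ne hh]; exact hs0 h
  refine ⟨s, hs1, Sum.elim (fun x => s (φ (Sum.inl (f x)) * (f x)⁻¹) * x)
    (fun x => s (φ (Sum.inr (f x)) * (f x)⁻¹) * x), ?_, ?_, ?_⟩
  · have hL : ∀ x, f (s (φ (Sum.inl (f x)) * (f x)⁻¹) * x) = φ (Sum.inl (f x)) := by
      intro x; rw [map_mul, hs, inv_mul_cancel_right]
    have hR : ∀ x, f (s (φ (Sum.inr (f x)) * (f x)⁻¹) * x) = φ (Sum.inr (f x)) := by
      intro x; rw [map_mul, hs, inv_mul_cancel_right]
    rintro (x | x) (y | y) hxy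
    · have hxy' : s (φ (Sum.inl (f x)) * (f x)⁻¹) * x = s (φ (Sum.inl (f y)) * (f y)⁻¹) * y := hxy
      have h1 := congrArg f hxy'
      rw [hL, hL] at h1
      have h2 : f x = f y := Sum.inl_injective (hφ h1)
      rw [h2] at hxy'
      rw [mul_left_cancel hxy']
    · have hxy' : s (φ (Sum.inl (f x)) * (f x)⁻¹) * x = s (φ (Sum.inr (f y)) * (f y)⁻¹) * y := hxy
      have h1 := congrArg f hxy'
      rw [hL, hR] at h1
      exact absurd (hφ h1) (by simp)
    · have hxy' : s (φ (Sum.inr (f x)) * (f x)⁻¹) * x = s (φ (Sum.inl (f y)) * (f y)⁻¹) * y := hxy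
      have h1 := congrArg f hxy'
      rw [hL, hR] at h1
      exact absurd (hφ h1) (by simp)
    · have hxy' : s (φ (Sum.inr (f x)) * (f x)⁻¹) * x = s (φ (Sum.inr (f y)) * (f y)⁻¹) * y := hxy
      have h1 := congrArg f hxy'
      rw [hR, hR] at h1
      have h2 : f x = f y := Sum.inr_injective (hφ h1)
      rw [h2] at hxy'
      rw [mul_left_cancel hxy']
  · intro x
    refine Finset.mem_image.2 ⟨_, hl (f x), ?_⟩
    show _ = s (φ (Sum.inl (f x)) * (f x)⁻¹) * x * x⁻¹
    rw [mul_inv_cancel_right]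
  · intro x
    refine Finset.mem_image.2 ⟨_, hr (f x), ?_⟩
    show _ = s (φ (Sum.inr (f x)) * (f x)⁻¹) * x * x⁻¹
    rw [mul_inv_cancel_right]

open scoped Pointwise in
/-- from an expansion inequality in a subgroup of a section to the whole group -/
theorem parad_of_expand {G M H : Type} [Group G] [Group M] [Group H] (ι : M →* G)
    (hι : Function.Injective ι) (f : M →* H) (hf : Function.Surjective f) (K : Subgroup H)
    [DecidableEq K] (P R : Finset K)
    (h : ∀ A B : Finset K, A.card + B.card ≤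
      (insert 1 P * A ∪ insert 1 R * B).card) :
    Parad G (P.card + R.card + 2) := by
  classical
  obtain ⟨φ, hφ, hl, hr⟩ := select (insert 1 P) (insert 1 R) h
  obtain ⟨φ1, hφ1, hl1, hr1⟩ := select_up K.subtype K.subtype_injective _ _ φ hφ hl hr
  obtain ⟨s, hs, φ2, hφ2, hl2, hr2⟩ := select_quot f hf _ _ φ1 hφ1 hl1 hr1
  obtain ⟨φ3, hφ3, hl3, hr3⟩ := select_up ι hι _ _ φ2 hφ2 hl2 hr2
  have h1 : (1 : G) ∈ (((insert 1 P : Finset K).image K.subtype).image s).image ι := by
    refine Finset.mem_image.2 ⟨1, Finset.mem_image.2 ⟨1, Finset.mem_image.2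
      ⟨1, Finset.mem_insert_self _ _, map_one _⟩, hs⟩, map_one _⟩
  have hc : ∀ X : Finset K, ((((insert 1 X : Finset K).image K.subtype).image s).image ι).card ≤
      X.card + 1 := fun X =>
    Finset.card_image_le.trans (Finset.card_image_le.trans
      (Finset.card_image_le.trans (Finset.card_insert_le _ _)))
  refine (parad_of_select _ _ h1 φ3 hφ3 hl3 hr3).mono ?_
  have h2 := hc P
  have h3 := hc R
  omega

theorem main6 {G M H : Type} [Group G] [Group M] [Group H] (ι : M →* G)
    (hι : Function.Injective ι) (f : M →* H) (hf : Function.Surjective f)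
    [Group.ResiduallyFinite H] (S0 : Finset H)
    (hS0 : Subgroup.closure (S0 : Set H) = ⊤) {ε : ℝ} (hε : 0 < ε) (hrg : RGpos H ε) :
    Parad G 6 := by
  classical
  obtain ⟨K, ρ, S, hK, hS, h7, hSρ, hρ, hsep⟩ := exists_K S0 hS0 hε hrg
  obtain ⟨P, R, hP, hR, h⟩ := expand_two hρ hsep S hS h7 hSρ
  have := parad_of_expand ι hι f hf K P R h
  rw [hP, hR] at this
  exact this

theorem main5 {G M H : Type} [Group G] [Group M] [Group H] (ι : M →* G)
    (hι : Function.Injective ι) (f : M →* H) (hf : Function.Surjective f)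
    [Group.ResiduallyFinite H] (S0 : Finset H)
    (hS0 : Subgroup.closure (S0 : Set H) = ⊤) {ε : ℝ} (hε : 0 < ε) (hrg : RGpos H ε)
    (a : H) (ha : ¬ IsOfFinOrder a) :
    Parad G 5 := by
  classical
  obtain ⟨K, ρ, S, hK, hS, h7, hSρ, hρ, hsep⟩ := exists_K S0 hS0 hε hrg
  obtain ⟨b, hb⟩ : ∃ b : K, ¬ IsOfFinOrder b := by
    obtain ⟨k, hk0, hkK, hkm⟩ := K.exists_pow_mem_of_index_ne_zero hK.index_ne_zero a
    refine ⟨⟨a ^ k, hkm⟩, fun h => ?_⟩
    have h1 : IsOfFinOrder (K.subtype ⟨a ^ k, hkm⟩) := K.subtype.isOfFinOrder h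
    rw [Subgroup.subtype_apply] at h1
    exact ha (h1.of_pow hk0.ne')
  have hinf : (Subgroup.closure ((({b} : Finset K)) : Set K) : Set K).Infinite := by
    rw [Finset.coe_singleton, ← Subgroup.zpowers_eq_closure]
    exact infinite_zpowers.2 hb
  obtain ⟨R, hR, h⟩ := expand_one hρ hsep S hS h7 hSρ b hinf
  have h5 := parad_of_expand ι hι f hf K {b} R h
  rw [Finset.card_singleton, hR] at h5
  exact h5

/-- finitely generated groups are countable -/
theorem countable_of_gen {G : Type} [Group G] (S : Finset G)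
    (hS : Subgroup.closure (S : Set G) = ⊤) : Countable G := by
  have h1 : Function.Surjective (FreeGroup.lift (fun s : (S : Set G) => (s : G))) := by
    rw [← MonoidHom.range_eq_top, FreeGroup.range_lift_eq_closure]
    rw [Subtype.range_coe, hS]
  have : Countable (S : Set G) := S.finite_toSet.countable
  exact h1.countable

end Pool.Agent.Q191.TR
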